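import Pool.Agent.Lib.MP_e0f6ac_lc.Defs
import Pool.Agent.Lib.MP_e0f6ac_lc.Ext
import Pool.Agent.Lib.MP_e0f6ac_lc.Ground
import Pool.Agent.Lib.MP_e0f6ac_lc.Cohen
import Pool.Agent.Lib.MP_e0f6ac_lc.Proper

/-!
Strongly proper forcing can destroy all winning strategies of II in the `k`-Menger game.
-/

open Pool.Agent.Lib.MP_e0f6ac_lc

theorem Pool.Agent.Lib.MP_e0f6ac_lc.Variants.KMenger.result :
    ∃ (B : Type) (_ : CompleteBooleanAlgebra B), Nontrivial B ∧ StronglyProper B ∧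
      ∃ X τ : ZFSet.{0}, IsTop X τ ∧ ¬ ground.cpt X τ X ∧ ground.winsM X τ ∧
        (extension B).winsM (check X.out) (check τ.out) = ⊥ := by
  obtain ⟨D, hD⟩ := cohen_dense
  obtain ⟨g, hg⟩ := cohen_generic
  exact ⟨Cohen, inferInstance, inferInstance, stronglyProper_of_dense D hD, spX, spT, isTop_sp,
    not_cpt_spX, ground_winsM, (goodExt Cohen).not_winsM hg D hD⟩
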